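import Mathlib

/-! Linear algebra: eigenvectors of real matrices of finite order, and a count of eigenvectors in a
quotient of a representation. -/

set_option autoImplicit false

open Module

namespace Pool.Agent.H34.FA

/-- Among `f` linearly independent eigenvectors in the image of `π : P → Ω`, those with eigenvalue
`l` are at least `f + dim Q - dim P` many, if `Q` maps injectively to `P` and its image in `Ω`
consists of eigenvectors with the eigenvalue `l`. -/
theorem count {k Ω P Q : Type*} [Field k] [AddCommGroup Ω] [Module k Ω] [AddCommGroup P]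
    [Module k P] [FiniteDimensional k P] [AddCommGroup Q] [Module k Q] [DecidableEq k]
    (T : Ω →ₗ[k] Ω) (π : P →ₗ[k] Ω) {f : ℕ} {η : Fin f → Ω} (hη : LinearIndependent k η)
    (hr : ∀ i, η i ∈ LinearMap.range π) {μ : Fin f → k} (hμ : ∀ i, T (η i) = μ i • η i) (l : k)
    (ι : Q →ₗ[k] P) (hι : Function.Injective ι) (hQ : ∀ x, T (π (ι x)) = l • π (ι x)) :
    f + finrank k Q ≤ finrank k P + (Finset.univ.filter fun i => μ i = l).card := by
  classical
  choose p hp using hr
  let S := {i : Fin f // μ i ≠ l}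
  let F : (S → k) × Q →ₗ[k] P :=
    (Fintype.linearCombination k (fun i : S => p i.1)).coprod ι
  have hF : Function.Injective F := by
    rw [← LinearMap.ker_eq_bot, LinearMap.ker_eq_bot']
    rintro ⟨c, x⟩ hcx
    have h1 : Fintype.linearCombination k (fun i : S => p i.1) c + ι x = 0 := hcx
    have h2 : (∑ i : S, c i • η i.1) + π (ι x) = 0 := by
      have := congrArg π h1
      rw [map_add, map_zero, Fintype.linearCombination_apply, map_sum] at this
      simpa only [map_smul, hp] using this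
    have h3 : (∑ i : S, (c i * μ i.1) • η i.1) + l • π (ι x) = 0 := by
      have := congrArg T h2
      rw [map_add, map_zero, map_sum, hQ] at this
      simpa only [map_smul, hμ, smul_smul] using this
    have h4 : ∑ i : S, (c i * (μ i.1 - l)) • η i.1 = 0 := by
      have h5 : l • ((∑ i : S, c i • η i.1) + π (ι x)) = 0 := by rw [h2, smul_zero]
      rw [smul_add, Finset.smul_sum] at h5
      have h6 := sub_eq_zero.2 (h3.trans h5.symm)
      rw [add_sub_add_right_eq_sub, ← Finset.sum_sub_distrib] at h6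
      rw [← h6]
      refine Finset.sum_congr rfl fun i _ => ?_
      rw [smul_smul, ← sub_smul]
      congr 1
      ring
    have h7 : LinearIndependent k (fun i : S => η i.1) :=
      hη.comp _ Subtype.val_injective
    have h8 : ∀ i : S, c i = 0 := by
      intro i
      have h9 := (Fintype.linearIndependent_iff.1 h7) _ h4 i
      rcases mul_eq_zero.1 h9 with h | h
      · exact h
      · exact absurd (sub_eq_zero.1 h) i.2
    have hc : c = 0 := funext h8
    subst hc
    have h10 : ι x = 0 := by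
      rw [map_zero, zero_add] at h1
      exact h1
    have hx : x = 0 := hι (h10.trans (map_zero ι).symm)
    rw [hx]
    rfl
  have hQf : FiniteDimensional k Q := FiniteDimensional.of_injective ι hι
  have h1 := LinearMap.finrank_le_finrank_of_injective hF
  rw [Module.finrank_prod, Module.finrank_fintype_fun_eq_card] at h1
  have h2 : Fintype.card S + (Finset.univ.filter fun i => μ i = l).card = f := by
    rw [Fintype.card_subtype]
    have := Finset.card_filter_add_card_filter_not (s := (Finset.univ : Finset (Fin f)))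
      (fun i => μ i = l)
    rw [Finset.card_univ, Fintype.card_fin] at this
    rw [add_comm]
    exact this
  omega

section real

variable {r e : ℕ}

/-- the eigenvectors of the real matrix `R` with the eigenvalue `μ` -/
noncomputable def eigv (R : Matrix (Fin r) (Fin r) ℝ) (μ : ℂ) : Submodule ℂ (Fin r → ℂ) :=
  End.eigenspace (Matrix.toLin' (R.map (algebraMap ℝ ℂ))) μ

theorem mem_eigv {R : Matrix (Fin r) (Fin r) ℝ} {μ : ℂ} {u : Fin r → ℂ} :
    u ∈ eigv R μ ↔ ∀ i, ∑ j, (R i j : ℂ) * u j = μ * u i := by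
  unfold eigv
  rw [End.mem_eigenspace_iff, Matrix.toLin'_apply, funext_iff]
  refine forall_congr' fun i => ?_
  rfl

theorem eigv_conj {R : Matrix (Fin r) (Fin r) ℝ} {μ : ℂ} {u : Fin r → ℂ} (hu : u ∈ eigv R μ) :
    (fun i => (starRingEnd ℂ) (u i)) ∈ eigv R ((starRingEnd ℂ) μ) := by
  rw [mem_eigv] at hu ⊢
  intro i
  have := congrArg (starRingEnd ℂ) (hu i)
  rw [map_sum, map_mul] at this
  simpa only [map_mul, Complex.conj_ofReal] using this

theorem toLin_pow {R : Matrix (Fin r) (Fin r) ℝ} (hR : R ^ e = 1) :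
    (Matrix.toLin' (R.map (algebraMap ℝ ℂ))) ^ e = 1 := by
  rw [← Matrix.toLin'_pow]
  have h : (R.map (algebraMap ℝ ℂ)) ^ e = 1 := by
    have h1 := congrArg ((algebraMap ℝ ℂ).mapMatrix) hR
    rw [map_pow, map_one] at h1
    exact h1
  rw [h, Matrix.toLin'_one]
  rfl

theorem iSup_eigv {R : Matrix (Fin r) (Fin r) ℝ} (he : 0 < e) (hR : R ^ e = 1) :
    ⨆ μ : ℂ, eigv R μ = ⊤ := by
  set T := Matrix.toLin' (R.map (algebraMap ℝ ℂ)) with hT
  have hTe : T ^ e = 1 := toLin_pow hR
  have hsemi : Module.End.IsSemisimple T := by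
    refine End.isSemisimple_of_squarefree_aeval_eq_zero (p := Polynomial.X ^ e - 1) ?_ ?_
    · refine Polynomial.Separable.squarefree ?_
      have h1 : (e : ℂ) ≠ 0 := by exact_mod_cast he.ne'
      exact Polynomial.separable_X_pow_sub_C (1 : ℂ) h1 one_ne_zero
    · rw [map_sub, map_pow, Polynomial.aeval_X, hTe, map_one, sub_self]
  have h1 := End.iSup_maxGenEigenspace_eq_top T
  rw [← h1]
  refine iSup_congr fun μ => ?_
  exact (hsemi.isFinitelySemisimple.maxGenEigenspace_eq_eigenspace μ).symm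

theorem eigv_pow {R : Matrix (Fin r) (Fin r) ℝ} (hR : R ^ e = 1) {μ : ℂ} (h : eigv R μ ≠ ⊥) :
    μ ^ e = 1 := by
  obtain ⟨u, hu, hu0⟩ := Submodule.exists_mem_ne_zero_of_ne_bot h
  have h1 : End.HasEigenvector (Matrix.toLin' (R.map (algebraMap ℝ ℂ))) μ u := ⟨hu, hu0⟩
  have h2 := h1.pow_apply e
  rw [toLin_pow hR, End.one_apply] at h2
  have h3 : (μ ^ e - 1) • u = 0 := by rw [sub_smul, one_smul, ← h2, sub_self]
  rcases smul_eq_zero.1 h3 with h | h
  · exact sub_eq_zero.1 h
  · exact absurd h hu0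

theorem conj_root {μ : ℂ} (he : 0 < e) (h : μ ^ e = 1) : (starRingEnd ℂ) μ = μ⁻¹ := by
  have h1 : ‖μ‖ = 1 := by
    have h2 : ‖μ‖ ^ e = 1 := by rw [← norm_pow, h, norm_one]
    exact (pow_eq_one_iff_of_nonneg (norm_nonneg _) he.ne').1 h2
  rw [Complex.inv_def, Complex.normSq_eq_norm_sq, h1]
  simp

/-- The eigenspace of `1`. -/
theorem finrank_eigv_one (R : Matrix (Fin r) (Fin r) ℝ) :
    finrank ℂ (eigv R 1) + (R - 1).rank ≤ r := by
  set K := LinearMap.ker (Matrix.toLin' (R - 1)) with hK
  have h1 : finrank ℝ (LinearMap.range (Matrix.toLin' (R - 1))) + finrank ℝ K = r := by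
    have := LinearMap.finrank_range_add_finrank_ker (Matrix.toLin' (R - 1))
    rw [Module.finrank_fintype_fun_eq_card, Fintype.card_fin] at this
    exact this
  have h2 : (R - 1).rank = finrank ℝ (LinearMap.range (Matrix.toLin' (R - 1))) := rfl
  have h3 : ∀ u : Fin r → ℂ, u ∈ eigv R 1 → (fun i => (u i).re) ∈ K ∧ (fun i => (u i).im) ∈ K := by
    intro u hu
    rw [mem_eigv] at hu
    rw [hK, LinearMap.mem_ker, LinearMap.mem_ker, Matrix.toLin'_apply, Matrix.toLin'_apply,
      Matrix.sub_mulVec, Matrix.sub_mulVec, Matrix.one_mulVec, Matrix.one_mulVec, sub_eq_zero,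
      sub_eq_zero]
    constructor
    · funext i
      have := congrArg Complex.re (hu i)
      rw [Complex.re_sum, one_mul] at this
      simpa [Matrix.mulVec, dotProduct] using this
    · funext i
      have := congrArg Complex.im (hu i)
      rw [Complex.im_sum, one_mul] at this
      simpa [Matrix.mulVec, dotProduct] using this
  let F : eigv R 1 →ₗ[ℝ] K × K :=
    { toFun := fun u => (⟨fun i => (u.1 i).re, (h3 _ u.2).1⟩, ⟨fun i => (u.1 i).im, (h3 _ u.2).2⟩)
      map_add' := by
        intro u v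
        ext i <;> simp
      map_smul' := by
        intro c u
        ext i <;> simp }
  have hF : Function.Injective F := by
    intro u v h
    have h4 := congrArg Prod.fst h
    have h5 := congrArg Prod.snd h
    ext i
    refine Complex.ext ?_ ?_
    · exact congrFun (congrArg Subtype.val h4) i
    · exact congrFun (congrArg Subtype.val h5) i
  have h6 := LinearMap.finrank_le_finrank_of_injective hF
  rw [finrank_real_of_complex, Module.finrank_prod] at h6
  omega

theorem exists_eig_ne_one {R : Matrix (Fin r) (Fin r) ℝ} (he : 0 < e) (hR : R ^ e = 1)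
    (h1 : R ≠ 1) : ∃ μ : ℂ, μ ≠ 1 ∧ eigv R μ ≠ ⊥ := by
  by_contra hcon
  push Not at hcon
  have h2 := iSup_eigv he hR
  have h3 : eigv R 1 = ⊤ := by
    rw [eq_top_iff, ← h2]
    refine iSup_le fun μ => ?_
    by_cases hμ : μ = 1
    · rw [hμ]
    · rw [hcon μ hμ]
      exact bot_le
  apply h1
  ext i j
  have h4 : (Pi.single j 1 : Fin r → ℂ) ∈ eigv R 1 := by rw [h3]; trivial
  rw [mem_eigv] at h4
  have h5 := h4 i
  rw [Finset.sum_eq_single j (fun b _ hb => by rw [Pi.single_eq_of_ne hb, mul_zero])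
    (fun h => absurd (Finset.mem_univ _) h), Pi.single_eq_same, mul_one, one_mul] at h5
  rw [Matrix.one_apply]
  by_cases hij : i = j
  · subst hij
    rw [Pi.single_eq_same] at h5
    rw [if_pos rfl]
    exact_mod_cast h5
  · rw [Pi.single_eq_of_ne hij] at h5
    rw [if_neg hij]
    exact_mod_cast h5

theorem exists_eig_two {R : Matrix (Fin r) (Fin r) ℝ} (he : 0 < e) (hR : R ^ e = 1)
    (h2 : 2 ≤ (R - 1).rank) :
    (∃ μ : ℂ, μ ≠ 1 ∧ μ ≠ -1 ∧ eigv R μ ≠ ⊥) ∨ 2 ≤ finrank ℂ (eigv R (-1)) := by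
  by_contra hcon
  push Not at hcon
  obtain ⟨h3, h4⟩ := hcon
  have h5 : eigv R 1 ⊔ eigv R (-1) = ⊤ := by
    rw [eq_top_iff, ← iSup_eigv he hR]
    refine iSup_le fun μ => ?_
    by_cases hμ : μ = 1
    · rw [hμ]
      exact le_sup_left
    · by_cases hμ' : μ = -1
      · rw [hμ']
        exact le_sup_right
      · rw [h3 μ hμ hμ']
        exact bot_le
  have h6 := Submodule.finrank_add_le_finrank_add_finrank (eigv R 1) (eigv R (-1))
  rw [h5, finrank_top, Module.finrank_fintype_fun_eq_card, Fintype.card_fin] at h6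
  have h7 := finrank_eigv_one R
  omega

/-- Exponents of eigenvalues, in pairs. -/
theorem exps {R : Matrix (Fin r) (Fin r) ℝ} (he : 0 < e) (hR : R ^ e = 1) {ζ : ℂ}
    (hζ : IsPrimitiveRoot ζ e) {μ : ℂ} (hμ1 : μ ≠ 1) (hμ : eigv R μ ≠ ⊥) :
    ∃ c : ℕ, 0 < c ∧ c < e ∧ μ = ζ ^ c ∧ eigv R (ζ ^ c) ≠ ⊥ ∧ eigv R (ζ ^ (e - c)) ≠ ⊥ := by
  have h1 := eigv_pow hR hμ
  have : NeZero e := ⟨he.ne'⟩
  obtain ⟨c, hc, hcμ⟩ := hζ.eq_pow_of_pow_eq_one h1
  refine ⟨c, ?_, hc, hcμ.symm, ?_, ?_⟩
  · rcases Nat.eq_zero_or_pos c with h | h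
    · rw [h, pow_zero] at hcμ
      exact absurd hcμ.symm hμ1
    · exact h
  · rw [hcμ]
    exact hμ
  · have h2 : ζ ^ (e - c) = (starRingEnd ℂ) μ := by
      rw [conj_root he h1, ← hcμ]
      refine eq_inv_of_mul_eq_one_left ?_
      rw [← pow_add, Nat.sub_add_cancel hc.le, hζ.pow_eq_one]
    rw [h2]
    obtain ⟨u, hu, hu0⟩ := Submodule.exists_mem_ne_zero_of_ne_bot hμ
    intro h3
    have h4 := eigv_conj hu
    rw [h3, Submodule.mem_bot] at h4
    apply hu0
    funext i
    have h5 := congrFun h4 i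
    simpa using h5

end real

end Pool.Agent.H34.FA
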