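import Pool.Agent.H34.FA.Lin
import Pool.Graph.R_pool_sql_team_seeded_843ab51a.V11168.Pair.Strict

/-! The condition of Reid-Tai type for spaces of 1-forms which consist of many copies of real
representations. -/

set_option autoImplicit false
set_option linter.overlappingInstances false
set_option linter.unusedSectionVars false

open Module FF IntermediateField Pool.Agent.W619.PQ Pool.Agent.Y173.QA Pool.Agent.Y173.QM
  Pool.Agent.V11168.Rel Pool.Agent.V11168.Pair

namespace Pool.Agent.H34.FA

variable {L : Type} [Field L] [Algebra ℂ L]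

/-- forms which are independent relative to `M` are linearly independent over `ℂ` -/
theorem indep_of_over {M : IntermediateField ℂ L} {m f : ℕ}
    {θ : Fin f → Derivation ℂ L L →ₗ[L] L} (h : IndepOver (m := m) M θ) :
    LinearIndependent ℂ θ := by
  obtain ⟨z, D, -, hdet⟩ := h
  rw [Fintype.linearIndependent_iff]
  intro c hc i
  by_contra hci
  apply hdet
  have h1 : ∀ j, ∑ l, (algebraMap ℂ L (c l)) * θ l (D j) = 0 := by
    intro j
    have := congrArg (fun η : Derivation ℂ L L →ₗ[L] L => η (D j)) hc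
    simp only [LinearMap.sum_apply, LinearMap.zero_apply] at this
    rw [← this]
    refine Finset.sum_congr rfl fun l _ => ?_
    rw [← Algebra.smul_def]
    rfl
  rw [← Matrix.exists_vecMul_eq_zero_iff]
  refine ⟨Fin.append (fun _ => 0) (fun l => algebraMap ℂ L (c l)), ?_, ?_⟩
  · intro h2
    have h3 := congrFun h2 (Fin.natAdd m i)
    rw [Fin.append_right, Pi.zero_apply] at h3
    exact hci ((FaithfulSMul.algebraMap_injective ℂ L) (h3.trans (map_zero _).symm))
  · funext j
    rw [Matrix.vecMul, dotProduct, Fin.sum_univ_add]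
    simp only [Fin.append_left, Fin.append_right, zero_mul, Finset.sum_const_zero, zero_add,
      Matrix.of_apply, Pi.zero_apply]
    exact h1 j

section

variable {s : ℕ} {r N : Fin s → ℕ}

/-- the index set of the forms -/
abbrev Idx (r N : Fin s → ℕ) : Type := (b : Fin s) × Fin (r b) × Fin (N b)

/-- the linear combinations of the forms -/
noncomputable def comb (θ : ∀ b, Fin (r b) → Fin (N b) → (Derivation ℂ L L →ₗ[L] L)) :
    (Idx r N → ℂ) →ₗ[ℂ] (Derivation ℂ L L →ₗ[L] L) :=
  Fintype.linearCombination ℂ (fun x : Idx r N => θ x.1 x.2.1 x.2.2)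

theorem comb_apply (θ : ∀ b, Fin (r b) → Fin (N b) → (Derivation ℂ L L →ₗ[L] L))
    (p : Idx r N → ℂ) : comb θ p = ∑ b, ∑ i, ∑ j, p ⟨b, i, j⟩ • θ b i j := by
  rw [comb, Fintype.linearCombination_apply, Fintype.sum_sigma]
  refine Finset.sum_congr rfl fun b _ => ?_
  rw [Fintype.sum_prod_type]

theorem range_comb (θ : ∀ b, Fin (r b) → Fin (N b) → (Derivation ℂ L L →ₗ[L] L)) :
    LinearMap.range (comb θ) =
      Submodule.span ℂ {η | ∃ b i j, η = θ b i j} := by
  rw [comb, Fintype.range_linearCombination]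
  congr 1
  ext η
  constructor
  · rintro ⟨⟨b, i, j⟩, rfl⟩
    exact ⟨b, i, j, rfl⟩
  · rintro ⟨b, i, j, rfl⟩
    exact ⟨⟨b, i, j⟩, rfl⟩

theorem card_idx : Fintype.card (Idx r N) = ∑ b, r b * N b := by
  rw [Fintype.card_sigma]
  refine Finset.sum_congr rfl fun b _ => ?_
  rw [Fintype.card_prod, Fintype.card_fin, Fintype.card_fin]

/-- the vectors in the block `b` with the columns in `E` -/
noncomputable def block (b : Fin s) (E : Submodule ℂ (Fin (r b) → ℂ)) :
    (Fin (N b) → E) →ₗ[ℂ] (Idx r N → ℂ) where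
  toFun c x := if h : x.1 = b then (c (h ▸ x.2.2)).1 (h ▸ x.2.1) else 0
  map_add' c c' := by
    funext ⟨b', i, j⟩
    by_cases h : b' = b
    · subst h
      simp
    · simp [h]
  map_smul' a c := by
    funext ⟨b', i, j⟩
    by_cases h : b' = b
    · subst h
      simp
    · simp [h]

theorem block_same (b : Fin s) (E : Submodule ℂ (Fin (r b) → ℂ)) (c : Fin (N b) → E)
    (i : Fin (r b)) (j : Fin (N b)) : block (N := N) b E c ⟨b, i, j⟩ = (c j).1 i := by
  simp [block]

theorem block_ne (b : Fin s) (E : Submodule ℂ (Fin (r b) → ℂ)) (c : Fin (N b) → E) (b' : Fin s)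
    (h : b' ≠ b) (i : Fin (r b')) (j : Fin (N b')) : block (N := N) b E c ⟨b', i, j⟩ = 0 := by
  simp [block, h]

theorem block_inj (b : Fin s) (E : Submodule ℂ (Fin (r b) → ℂ)) :
    Function.Injective (block (N := N) b E) := by
  intro c c' h
  funext j
  ext i
  rw [← block_same b E c i j, ← block_same b E c' i j, h]

theorem comb_block (θ : ∀ b, Fin (r b) → Fin (N b) → (Derivation ℂ L L →ₗ[L] L)) (b : Fin s)
    (E : Submodule ℂ (Fin (r b) → ℂ)) (c : Fin (N b) → E) :
    comb θ (block b E c) = ∑ j, ∑ i, (c j).1 i • θ b i j := by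
  rw [comb_apply, Finset.sum_eq_single b]
  · rw [Finset.sum_comm]
    refine Finset.sum_congr rfl fun j _ => Finset.sum_congr rfl fun i _ => ?_
    rw [block_same]
  · intro b' _ hb'
    refine Finset.sum_eq_zero fun i _ => Finset.sum_eq_zero fun j _ => ?_
    rw [block_ne _ _ _ _ hb', zero_smul]
  · intro h
    exact absurd (Finset.mem_univ _) h

/-- the number of the eigenforms with a given eigenvalue -/
theorem count_forms (θ : ∀ b, Fin (r b) → Fin (N b) → (Derivation ℂ L L →ₗ[L] L))
    {g : L ≃ₐ[ℂ] L} (b : Fin s) {R : Matrix (Fin (r b)) (Fin (r b)) ℝ}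
    (hR : ∀ i j, IsImage g (θ b i j) (∑ l, (R l i : ℂ) • θ b l j)) {f : ℕ}
    {η : Fin f → Derivation ℂ L L →ₗ[L] L} (hη : LinearIndependent ℂ η)
    (hηV : ∀ i, η i ∈ Submodule.span ℂ {η | ∃ b i j, η = θ b i j})
    {μ : Fin f → ℂ} (hμ : ∀ i, IsImage g (η i) (μ i • η i)) (l : ℂ) :
    f + N b * finrank ℂ (eigv R l) ≤
      ∑ b, r b * N b + (Finset.univ.filter fun i => μ i = l).card := by
  classical
  have h1 := count (act g) (comb θ) hη (fun i => by rw [range_comb]; exact hηV i) (μ := μ)
    (fun i => ((isImage_iff g _ _).1 (hμ i)).symm) l (block (N := N) b (eigv R l))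
    (block_inj b _) (fun c => by
      rw [comb_block, map_sum, Finset.smul_sum]
      refine Finset.sum_congr rfl fun j _ => ?_
      rw [map_sum]
      have h2 : ∀ i, act g ((c j).1 i • θ b i j) =
          ∑ l, ((R l i : ℂ) * (c j).1 i) • θ b l j := by
        intro i
        rw [map_smul, ← (isImage_iff g _ _).1 (hR i j), Finset.smul_sum]
        refine Finset.sum_congr rfl fun l _ => ?_
        rw [smul_smul, mul_comm]
      simp only [h2]
      rw [Finset.sum_comm, Finset.smul_sum]
      refine Finset.sum_congr rfl fun i _ => ?_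
      rw [← Finset.sum_smul, mem_eigv.1 (c j).2 i, smul_smul])
  rw [Module.finrank_pi_fintype, Finset.sum_const, Finset.card_univ, Fintype.card_fin,
    Module.finrank_fintype_fun_eq_card, card_idx, smul_eq_mul] at h1
  exact h1

/-- **The estimate.** -/
theorem sum_exps (θ : ∀ b, Fin (r b) → Fin (N b) → (Derivation ℂ L L →ₗ[L] L))
    {g : L ≃ₐ[ℂ] L} {e : ℕ} (he : 2 ≤ e) (b : Fin s) {R : Matrix (Fin (r b)) (Fin (r b)) ℝ}
    (hRe : R ^ e = 1)
    (hR : ∀ i j, IsImage g (θ b i j) (∑ l, (R l i : ℂ) • θ b l j)) {f : ℕ} {t : ℕ}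
    (hb : (R ≠ 1 ∧ ∑ b, r b * N b + 2 + t ≤ f + N b) ∨
      (2 ≤ (R - 1).rank ∧ ∑ b, r b * N b + 1 + t ≤ f + N b))
    {η : Fin f → Derivation ℂ L L →ₗ[L] L} (hη : LinearIndependent ℂ η)
    (hηV : ∀ i, η i ∈ Submodule.span ℂ {η | ∃ b i j, η = θ b i j})
    {ζ : ℂ} (hζ : IsPrimitiveRoot ζ e) {a : Fin f → ℕ} (ha : ∀ i, a i < e)
    (hμ : ∀ i, IsImage g (η i) (ζ ^ a i • η i)) : e + t ≤ ∑ i, a i := by
  classical
  have hD : f ≤ ∑ b, r b * N b := by
    have h1 := finrank_span_eq_card hη
    rw [Fintype.card_fin] at h1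
    rw [← h1, ← card_idx, ← Module.finrank_fintype_fun_eq_card (R := ℂ)]
    refine (Submodule.finrank_mono (t := LinearMap.range (comb θ)) ?_).trans
      (LinearMap.finrank_range_le (comb θ))
    rw [Submodule.span_le, range_comb]
    rintro _ ⟨i, rfl⟩
    exact hηV i
  -- the number of the exponents `c`
  let A : ℕ → ℕ := fun c => (Finset.univ.filter fun i => a i = c).card
  have hA : ∀ c, c < e → f + N b * finrank ℂ (eigv R (ζ ^ c)) ≤ ∑ b, r b * N b + A c := by
    intro c hc
    have h1 := count_forms θ b hR hη hηV hμ (ζ ^ c)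
    have h2 : (Finset.univ.filter fun i => ζ ^ a i = ζ ^ c) =
        (Finset.univ.filter fun i => a i = c) := by
      refine Finset.filter_congr fun i _ => ?_
      exact ⟨fun h => hζ.pow_inj (ha i) hc h, fun h => by rw [h]⟩
    rw [h2] at h1
    exact h1
  have hsum1 : ∀ c, A c * c ≤ ∑ i, a i := by
    intro c
    have h1 : A c * c = ∑ i ∈ Finset.univ.filter fun i => a i = c, a i := by
      rw [Finset.sum_congr rfl (fun i hi => (Finset.mem_filter.1 hi).2), Finset.sum_const,
        smul_eq_mul]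
    rw [h1]
    exact Finset.sum_le_sum_of_subset (Finset.filter_subset _ _)
  have hsum2 : ∀ c c', c ≠ c' → A c * c + A c' * c' ≤ ∑ i, a i := by
    intro c c' hcc
    have h1 : ∀ c, A c * c = ∑ i ∈ Finset.univ.filter fun i => a i = c, a i := by
      intro c
      rw [Finset.sum_congr rfl (fun i hi => (Finset.mem_filter.1 hi).2), Finset.sum_const,
        smul_eq_mul]
    rw [h1, h1, ← Finset.sum_union]
    · exact Finset.sum_le_sum_of_subset (Finset.subset_univ _)
    · rw [Finset.disjoint_left]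
      intro i hi hi'
      exact hcc ((Finset.mem_filter.1 hi).2.symm.trans (Finset.mem_filter.1 hi').2)
  have hpos : ∀ μ, eigv R μ ≠ ⊥ → 1 ≤ finrank ℂ (eigv R μ) := by
    intro μ h
    exact Nat.one_le_iff_ne_zero.2 (fun h' => h (Submodule.finrank_eq_zero.1 h'))
  -- a pair of different exponents
  have hpair : ∀ c, 0 < c → c < e → 2 * c ≠ e → eigv R (ζ ^ c) ≠ ⊥ → eigv R (ζ ^ (e - c)) ≠ ⊥ →
      ∑ b, r b * N b + 1 + t ≤ f + N b → e + t ≤ ∑ i, a i := by
    intro c h0 hc h2 h3 h4 h5
    have h6 := hA c hc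
    have h7 := hA (e - c) (by omega)
    have h8 := Nat.mul_le_mul_left (N b) (hpos _ h3)
    have h9 := Nat.mul_le_mul_left (N b) (hpos _ h4)
    have h10 : 1 + t ≤ A c := by omega
    have h11 : 1 + t ≤ A (e - c) := by omega
    have h12 := hsum2 c (e - c) (by omega)
    have h13 := Nat.mul_le_mul_right c h10
    have h14 := Nat.mul_le_mul_right (e - c) h11
    have h15 : (1 + t) * c + (1 + t) * (e - c) = (1 + t) * e := by
      rw [← Nat.mul_add]
      congr 1
      omega
    nlinarith
  -- the exponent `e / 2`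
  have hhalf : ∀ c, 2 * c = e → 2 + t ≤ A c → e + t ≤ ∑ i, a i := by
    intro c h1 h2
    have h3 := hsum1 c
    have h4 := Nat.mul_le_mul_right c h2
    nlinarith
  have hminus : ∀ c, c < e → ζ ^ c = -1 → 2 * c = e := by
    intro c hc h
    have h1 : ζ ^ (2 * c) = 1 := by
      rw [mul_comm, pow_mul, h]
      norm_num
    have h2 := hζ.dvd_of_pow_eq_one _ h1
    have h3 : c ≠ 0 := by
      rintro rfl
      rw [pow_zero] at h
      norm_num at h
    obtain ⟨k, hk⟩ := h2
    have h4 : k = 1 := by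
      have h5 : 0 < k := by
        rcases Nat.eq_zero_or_pos k with h6 | h6
        · rw [h6] at hk
          omega
        · exact h6
      have h7 : k < 2 := by
        by_contra h8
        push Not at h8
        have := Nat.mul_le_mul_left e h8
        omega
      omega
    rw [h4] at hk
    omega
  rcases hb with ⟨hb1, hb2⟩ | ⟨hb1, hb2⟩
  · obtain ⟨μ, hμ1, hμ2⟩ := exists_eig_ne_one (by omega) hRe hb1
    obtain ⟨c, h0, hc, hμc, h3, h4⟩ := exps (by omega) hRe hζ hμ1 hμ2
    by_cases h2 : 2 * c = e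
    · refine hhalf c h2 ?_
      have h6 := hA c hc
      have h8 := Nat.mul_le_mul_left (N b) (hpos _ h3)
      omega
    · exact hpair c h0 hc h2 h3 h4 (by omega)
  · rcases exists_eig_two (by omega) hRe hb1 with ⟨μ, hμ1, hμm, hμ2⟩ | h2
    · obtain ⟨c, h0, hc, hμc, h3, h4⟩ := exps (by omega) hRe hζ hμ1 hμ2
      refine hpair c h0 hc ?_ h3 h4 hb2
      intro h2
      have h5 : (ζ ^ c) ^ 2 = 1 := by
        rw [← pow_mul, mul_comm, h2, hζ.pow_eq_one]
      rw [← hμc] at h5
      have h6 : (μ - 1) * (μ + 1) = 0 := by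
        ring_nf
        rw [h5]
        ring
      rcases mul_eq_zero.1 h6 with h | h
      · exact hμ1 (sub_eq_zero.1 h)
      · exact hμm (eq_neg_of_add_eq_zero_left h)
    · have hne : eigv R (-1) ≠ ⊥ := by
        intro h
        rw [h, finrank_bot] at h2
        omega
      have hm1 : (-1 : ℂ) ≠ 1 := by norm_num
      obtain ⟨c, h0, hc, hμc, h3, h4⟩ := exps (by omega) hRe hζ hm1 hne
      have h2c := hminus c hc hμc.symm
      refine hhalf c h2c ?_
      have h6 := hA c hc
      rw [← hμc] at h6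
      have h8 := Nat.mul_le_mul_left (N b) h2
      omega

end

end Pool.Agent.H34.FA
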